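import Pool.Agent.LPW.StmtsS

/-!
# Squad LPW, row LED: the leading term after a change of coordinates
-/

set_option autoImplicit false

open Polynomial

namespace Pool.Agent.LPW.H38

open Pool.Agent.LPW

section
variable {R : Type} [CommRing R]

theorem dCm (a : R) (q : R[X]) : (C a * q).degree ≤ q.degree := by
  rw [← smul_eq_C_mul]
  exact degree_smul_le a q

theorem comb {ι : Type} [DecidableEq ι] (I S : Finset ι) (hIS : I ⊆ S) (hh h' T : ι → R)
    (v pp : R) (hq : ∀ q ∈ S \ I, hh q = pp * h' q) :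
    v * ∑ q ∈ I, hh q * T q + pp * (v * ∑ q ∈ S \ I, h' q * T q) = v * ∑ q ∈ S, hh q * T q := by
  have h1 : ∑ q ∈ S \ I, hh q * T q = pp * ∑ q ∈ S \ I, h' q * T q := by
    rw [Finset.mul_sum]
    refine Finset.sum_congr rfl fun q h => ?_
    rw [hq q h, mul_assoc]
  rw [← Finset.sum_sdiff hIS, h1]
  ring

/-- `(Y₂ ^ e + Y₁) ^ i Y₂ ^ j` -/
noncomputable def TT (R : Type) [CommRing R] (e i j : ℕ) : R[X][X] := (X ^ e + C X) ^ i * X ^ j

theorem deg_CX {e : ℕ} (he : 0 < e) : (C X : R[X][X]).degree < (e : WithBot ℕ) :=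
  lt_of_le_of_lt degree_C_le (by exact_mod_cast he)

theorem TT_monic [Nontrivial R] {e : ℕ} (he : 0 < e) (i j : ℕ) : (TT R e i j).Monic :=
  ((monic_X_pow_add (deg_CX he)).pow i).mul (monic_X_pow j)

theorem TT_natDegree [Nontrivial R] {e : ℕ} (he : 0 < e) (i j : ℕ) :
    (TT R e i j).natDegree = e * i + j := by
  rw [TT, ((monic_X_pow_add (deg_CX he)).pow i).natDegree_mul (monic_X_pow j), natDegree_X_pow,
    (monic_X_pow_add (deg_CX he)).natDegree_pow, natDegree_X_pow_add_C, Nat.mul_comm]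

theorem TT_eval (e i j : ℕ) (a b : R) :
    ((TT R e i j).map (evalRingHom (a - b ^ e))).eval b = a ^ i * b ^ j := by
  rw [TT, Polynomial.map_mul, Polynomial.map_pow, Polynomial.map_add, Polynomial.map_pow,
    Polynomial.map_pow, map_X, map_C, coe_evalRingHom, eval_X, eval_mul, eval_pow, eval_add,
    eval_pow, eval_pow, eval_X, eval_C, add_sub_cancel]

end

theorem led : LedStmt := by
  intro hTrn hNrm p _ K H hH hDom
  classical
  obtain ⟨κ, h, hκ, hunit, hdvd⟩ := hNrm p K H hH hDom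
  set e := K + 1 with he
  have he0 : 0 < e := Nat.succ_pos K
  have hpnu : ¬ IsUnit (p : ℤ_[p]) := PadicInt.prime_p.not_isUnit
  have hp0 : (p : ℤ_[p]) ≠ 0 := by exact_mod_cast (Fact.out : p.Prime).ne_zero
  -- the pairs with a unit
  set I : Finset (ℕ × ℕ) :=
    (Finset.range (K + 1) ×ˢ Finset.range (K + 1)).filter fun q => IsUnit (h q.1 q.2) with hI
  have hle : ∀ i j, IsUnit (h i j) → i + j ≤ K := by
    intro i j hu
    by_contra hc
    push Not at hc
    have h1 := hdvd i j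
    have h2 : (p : ℤ_[p]) ∣ h i j :=
      (dvd_pow_self _ (by omega : i + j - K ≠ 0)).trans h1
    exact hpnu (isUnit_of_dvd_unit h2 hu)
  have hmemI : ∀ q : ℕ × ℕ, q ∈ I ↔ IsUnit (h q.1 q.2) := by
    intro q
    rw [hI, Finset.mem_filter, Finset.mem_product, Finset.mem_range, Finset.mem_range]
    refine ⟨fun h => h.2, fun hu => ⟨?_, hu⟩⟩
    have := hle q.1 q.2 hu
    omega
  have hne : I.Nonempty := by
    obtain ⟨k, l, _, hu⟩ := hunit
    exact ⟨(k, l), (hmemI _).2 hu⟩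
  obtain ⟨q₀, hq₀, hmax⟩ := I.exists_max_image (fun q => e * q.1 + q.2) hne
  have hq₀u := (hmemI q₀).1 hq₀
  have hq₀K := hle _ _ hq₀u
  set m := e * q₀.1 + q₀.2 with hm
  obtain ⟨u, hu⟩ := hq₀u
  refine ⟨m, ?_, fun M => ?_⟩
  · calc m ≤ e * q₀.1 + e * q₀.2 := by
          rw [hm]
          have : q₀.2 ≤ e * q₀.2 := Nat.le_mul_of_pos_left _ he0
          omega
      _ = e * (q₀.1 + q₀.2) := by ring
      _ ≤ e * K := Nat.mul_le_mul_left e hq₀K
      _ ≤ (K + 1) ^ 2 := by rw [he]; nlinarith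
  · set M' := κ + M + K + 1 with hM'
    set S : Finset (ℕ × ℕ) := Finset.range M' ×ˢ Finset.range M' with hS
    have hIS : I ⊆ S := by
      intro q hq
      have := hle _ _ ((hmemI q).1 hq)
      rw [hS, Finset.mem_product, Finset.mem_range, Finset.mem_range]
      omega
    have hp' : ∀ q : ℕ × ℕ, ∃ a : ℤ_[p], q ∉ I → h q.1 q.2 = p * a := by
      intro q
      by_cases hq : q ∈ I
      · exact ⟨0, fun hc => absurd hq hc⟩
      · rw [hmemI] at hq
        have h1 : (p : ℤ_[p]) ∣ h q.1 q.2 := by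
          have h2 : h q.1 q.2 ∈ nonunits ℤ_[p] := hq
          rw [← IsLocalRing.mem_maximalIdeal, PadicInt.maximalIdeal_eq_span_p,
            Ideal.mem_span_singleton] at h2
          exact h2
        obtain ⟨a, ha⟩ := h1
        exact ⟨a, fun _ => ha⟩
    choose h' hh' using hp'
    set v : ℤ_[p] := ((u⁻¹ : ℤ_[p]ˣ) : ℤ_[p]) with hv
    have hvu : v * h q₀.1 q₀.2 = 1 := by
      rw [← hu, hv, Units.inv_mul]
    refine ⟨C (C v) * ∑ q ∈ I, C (C (h q.1 q.2)) * TT ℤ_[p] e q.1 q.2,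
      C (C v) * ∑ q ∈ S \ I, C (C (h' q)) * TT ℤ_[p] e q.1 q.2, ?_⟩
    -- the leading part
    have hP₀ : C (C v) * ∑ q ∈ I, C (C (h q.1 q.2)) * TT ℤ_[p] e q.1 q.2 =
        TT ℤ_[p] e q₀.1 q₀.2 + C (C v) * ∑ q ∈ I.erase q₀, C (C (h q.1 q.2)) *
          TT ℤ_[p] e q.1 q.2 := by
      rw [← Finset.add_sum_erase I _ hq₀, mul_add, ← mul_assoc, ← C_mul, ← C_mul, hvu, C_1, C_1,
        one_mul]
    have hdeg : (C (C v) * ∑ q ∈ I.erase q₀, C (C (h q.1 q.2)) *
        TT ℤ_[p] e q.1 q.2).degree < (TT ℤ_[p] e q₀.1 q₀.2).degree := by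
      rw [degree_eq_natDegree (TT_monic he0 _ _).ne_zero, TT_natDegree he0]
      have hlt : ∀ q ∈ I.erase q₀, (C (C (h q.1 q.2)) * TT ℤ_[p] e q.1 q.2).degree <
          ((e * q₀.1 + q₀.2 : ℕ) : WithBot ℕ) := by
        intro q hq
        obtain ⟨hq1, hq2⟩ := Finset.mem_erase.1 hq
        have h3 : e * q.1 + q.2 < e * q₀.1 + q₀.2 := by
          refine lt_of_le_of_ne (hmax q hq2) fun heq => hq1 ?_
          have h4 := hle _ _ ((hmemI q).1 hq2)
          have h5 : q.2 < e := by omega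
          have h6 : q₀.2 < e := by omega
          have h7 : q.1 = q₀.1 := by
            have := congrArg (· / e) heq
            simp only [Nat.mul_add_div he0, Nat.div_eq_of_lt h5, Nat.div_eq_of_lt h6,
              Nat.add_zero] at this
            exact this
          have h8 : q.2 = q₀.2 := by
            rw [h7] at heq
            omega
          exact Prod.ext h7 h8
        refine lt_of_le_of_lt (dCm _ _) ?_
        rw [degree_eq_natDegree (TT_monic he0 _ _).ne_zero, TT_natDegree he0]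
        exact_mod_cast h3
      refine lt_of_le_of_lt (dCm _ _) ?_
      refine lt_of_le_of_lt (degree_sum_le _ _) ?_
      rw [Finset.sup_lt_iff (WithBot.bot_lt_coe _)]
      exact hlt
    refine ⟨?_, ?_, ?_⟩
    · rw [hP₀]
      exact (TT_monic he0 _ _).add_of_left hdeg
    · rw [hP₀, natDegree_add_eq_left_of_degree_lt hdeg, TT_natDegree he0]
    · intro x₀ x₁ hz
      have h1 := hTrn p H x₀ x₁ hz M'
      have h2 : ∑ j ∈ Finset.range M', ∑ i ∈ Finset.range M', hc H i j * ((p : ℤ_[p]) * x₀) ^ i *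
          ((p : ℤ_[p]) * x₁) ^ j = (p : ℤ_[p]) ^ κ * ∑ q ∈ S, h q.1 q.2 * (x₀ ^ q.1 * x₁ ^ q.2) := by
        rw [hS, Finset.sum_product_right, Finset.mul_sum]
        refine Finset.sum_congr rfl fun j _ => ?_
        rw [Finset.mul_sum]
        refine Finset.sum_congr rfl fun i _ => ?_
        have h3 := hκ i j
        calc hc H i j * ((p : ℤ_[p]) * x₀) ^ i * ((p : ℤ_[p]) * x₁) ^ j
            = (hc H i j * (p : ℤ_[p]) ^ (i + j)) * (x₀ ^ i * x₁ ^ j) := by
              rw [mul_pow, mul_pow, pow_add]; ring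
          _ = _ := by rw [h3]; ring
      rw [h2] at h1
      have h4 : (p : ℤ_[p]) ^ M ∣ ∑ q ∈ S, h q.1 q.2 * (x₀ ^ q.1 * x₁ ^ q.2) := by
        have h5 : (p : ℤ_[p]) ^ κ * (p : ℤ_[p]) ^ M ∣
            (p : ℤ_[p]) ^ κ * ∑ q ∈ S, h q.1 q.2 * (x₀ ^ q.1 * x₁ ^ q.2) := by
          rw [← pow_add]
          exact (pow_dvd_pow _ (by omega)).trans h1
        exact (mul_dvd_mul_iff_left (pow_ne_zero κ hp0)).1 h5
      have h6 : C (C v) * ∑ q ∈ I, C (C (h q.1 q.2)) * TT ℤ_[p] e q.1 q.2 + C (C (p : ℤ_[p])) *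
          (C (C v) * ∑ q ∈ S \ I, C (C (h' q)) * TT ℤ_[p] e q.1 q.2) =
          C (C v) * ∑ q ∈ S, C (C (h q.1 q.2)) * TT ℤ_[p] e q.1 q.2 :=
        comb I S hIS (fun q => C (C (h q.1 q.2))) (fun q => C (C (h' q)))
          (fun q => TT ℤ_[p] e q.1 q.2) _ _ fun q hq => by
            change C (C (h q.1 q.2)) = C (C (p : ℤ_[p])) * C (C (h' q))
            rw [hh' q (Finset.mem_sdiff.1 hq).2, C_mul, C_mul]
      rw [h6, Polynomial.map_mul, eval_mul, map_C, coe_evalRingHom, eval_C, eval_C,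
        Polynomial.map_sum, eval_finsetSum]
      have h7 : ∀ q ∈ S, ((C (C (h q.1 q.2)) * TT ℤ_[p] e q.1 q.2).map
          (evalRingHom (x₀ - x₁ ^ e))).eval x₁ = h q.1 q.2 * (x₀ ^ q.1 * x₁ ^ q.2) := by
        intro q _
        rw [Polynomial.map_mul, eval_mul, TT_eval, map_C, coe_evalRingHom, eval_C, eval_C]
      rw [Finset.sum_congr rfl h7]
      exact h4.mul_left v

end Pool.Agent.LPW.H38
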