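import Pool.Agent.LPW.StmtsE

/-!
# Squad LPW, row NV2: non-vanishing of a minor, from the restriction to a line
-/

set_option autoImplicit false

open Polynomial
open Pool.Agent.LUB (FullRank sp spr LogMod EvhStmt NvnConcl lc)

namespace Pool.Agent.LPW.H38

open Pool.Agent.LPW

/-- homomorphisms preserve the logarithms -/
theorem logMod_map {p : ℕ} [Fact p.Prime] {S S' : Type} [CommRing S] [Algebra ℤ_[p] S]
    [CommRing S'] [Algebra ℤ_[p] S'] (ψ : S →+* S')
    (hψ : ∀ c : ℤ_[p], ψ (algebraMap ℤ_[p] S c) = algebraMap ℤ_[p] S' c) {F w l : S[X]}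
    (h : LogMod p F w l) : LogMod p (F.map ψ) (w.map ψ) (l.map ψ) := by
  intro N
  obtain ⟨a, b, hab⟩ := h N
  refine ⟨a.map ψ, b.map ψ, ?_⟩
  rw [hab, Polynomial.map_add, Polynomial.map_add, Polynomial.map_mul, Polynomial.map_mul,
    Polynomial.map_C, map_pow, map_natCast, Polynomial.map_sum]
  congr 2
  refine Finset.sum_congr rfl fun k _ => ?_
  rw [Polynomial.map_mul, Polynomial.map_C, Polynomial.map_pow, hψ]

theorem res_zero (g : (MvPolynomial (Fin 2) ℤ)[X]) (P v : Fin 2 → ℤ) :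
    sp (res g P v) 0 = spr2 g P := by
  unfold sp res spr2
  rw [Polynomial.map_map]
  congr 1
  refine MvPolynomial.ringHom_ext (fun n => ?_) (fun i => ?_)
  · simp
  · simp

theorem spr_res {S : Type} [CommRing S] (g : (MvPolynomial (Fin 2) ℤ)[X]) (P v : Fin 2 → ℤ)
    (T' : S) : spr (res g P v) T' = spr2 g fun i => (P i : S) + v i * T' := by
  unfold spr res spr2
  rw [Polynomial.map_map]
  congr 1
  refine MvPolynomial.ringHom_ext (fun n => ?_) (fun i => ?_)
  · simp
  · have h1 : ∀ n : ℤ, eval₂ (Int.castRingHom S) T' ((n : ℤ) : ℤ[X]) = (n : S) := by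
      intro n
      rw [← map_intCast (C : ℤ →+* ℤ[X]), eval₂_C]
      simp
    simp [h1]

theorem map_spr2 {S S' : Type} [CommRing S] [CommRing S'] (ψ : S →+* S')
    (g : (MvPolynomial (Fin 2) ℤ)[X]) (T : Fin 2 → S) :
    (spr2 g T).map ψ = spr2 g fun i => ψ (T i) := by
  unfold spr2
  rw [Polynomial.map_map]
  congr 1
  refine MvPolynomial.ringHom_ext (fun n => ?_) (fun i => ?_)
  · simp
  · simp

theorem nv2 : Nv2Stmt := by
  intro hEvh hNvn p _ r f u hf P c hPc hfull hsep hcop T hT0 hT1 M hM w b l hid hlog hdeg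
  obtain ⟨k, hk⟩ := hPc 0
  -- the evaluation of the first variable
  obtain ⟨ev, hev⟩ : ∃ ev : PowerSeries ℤ_[p] →ₐ[ℤ_[p]] ℤ_[p],
      ev PowerSeries.X = (p : ℤ_[p]) * (k : ℤ_[p]) := by
    obtain ⟨φ, hφ⟩ := hEvh p Unit (fun _ => (p : ℤ_[p]) * (k : ℤ_[p])) (by
      intro _
      rw [norm_mul]
      have h1 : ‖(p : ℤ_[p])‖ < 1 := by
        rw [PadicInt.norm_p]
        exact inv_lt_one_of_one_lt₀ (by exact_mod_cast (Fact.out : p.Prime).one_lt)
      have h2 : ‖(k : ℤ_[p])‖ ≤ 1 := PadicInt.norm_le_one _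
      calc ‖(p : ℤ_[p])‖ * ‖(k : ℤ_[p])‖ ≤ ‖(p : ℤ_[p])‖ * 1 :=
            mul_le_mul_of_nonneg_left h2 (norm_nonneg _)
        _ < 1 := by rw [mul_one]; exact h1)
    exact ⟨φ, hφ ()⟩
  set ψ : PowerSeries (PowerSeries ℤ_[p]) →+* PowerSeries ℤ_[p] :=
    PowerSeries.map (ev : PowerSeries ℤ_[p] →+* ℤ_[p]) with hψ
  have hψC : ∀ a : PowerSeries ℤ_[p], ψ (PowerSeries.C a) = PowerSeries.C (ev a) := by
    intro a
    rw [hψ, PowerSeries.map_C]
    rfl
  have hevC : ∀ a : ℤ_[p], ev (PowerSeries.C a) = a := by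
    intro a
    have := ev.commutes a
    rwa [PowerSeries.algebraMap_apply] at this
  have hψalg : ∀ a : ℤ_[p], ψ (algebraMap ℤ_[p] (PowerSeries (PowerSeries ℤ_[p])) a) =
      algebraMap ℤ_[p] (PowerSeries ℤ_[p]) a := by
    intro a
    rw [PowerSeries.algebraMap_apply, hψC, ev.commutes, PowerSeries.algebraMap_apply]
  set T' : PowerSeries ℤ_[p] := PowerSeries.C (((c 1 - P 1 : ℤ)) : ℤ_[p]) +
    (p : PowerSeries ℤ_[p]) ^ 2 * PowerSeries.X with hT'
  have hψT : (fun i => ψ (T i)) = fun i => ((P i : ℤ) : PowerSeries ℤ_[p]) +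
      ((![0, 1] : Fin 2 → ℤ) i : PowerSeries ℤ_[p]) * T' := by
    funext i
    fin_cases i
    · change ψ (T 0) = ((P 0 : ℤ) : PowerSeries ℤ_[p]) + ((0 : ℤ) : PowerSeries ℤ_[p]) * T'
      rw [hT0, map_add, map_mul, map_pow, map_natCast, hψC, hψC, hevC, hev, Int.cast_zero, zero_mul,
        add_zero]
      have h1 : (P 0 : ℤ) = c 0 + (p : ℤ) ^ 3 * k := by
        rw [← hk]; ring
      have h2 : ((P 0 : ℤ) : PowerSeries ℤ_[p]) = PowerSeries.C ((P 0 : ℤ) : ℤ_[p]) := by
        rw [map_intCast]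
      rw [h2, h1]
      push_cast
      rw [map_add, map_mul, map_mul, map_pow, map_natCast, map_intCast]
      ring
    · change ψ (T 1) = ((P 1 : ℤ) : PowerSeries ℤ_[p]) + ((1 : ℤ) : PowerSeries ℤ_[p]) * T'
      rw [hT1, map_add, map_mul, map_pow, map_natCast, hψC, hevC, hT', Int.cast_one, one_mul]
      have h3 : ψ PowerSeries.X = PowerSeries.X := by
        rw [hψ, PowerSeries.map_X]
      rw [h3]
      push_cast
      rw [map_sub, map_intCast, map_intCast]
      ring
  have hmap : ∀ g : (MvPolynomial (Fin 2) ℤ)[X],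
      (spr2 g T).map ψ = spr (res g P ![0, 1]) T' := by
    intro g
    rw [map_spr2, spr_res, hψT]
  have hmon : (res f P ![0, 1]).Monic := hf.map _
  have hnd : (res f P ![0, 1]).natDegree = f.natDegree := hf.natDegree_map _
  obtain ⟨J, hJ⟩ := hNvn p r (res f P ![0, 1]) (fun i => res (u i) P ![0, 1]) hmon hfull 0 (by
      rw [res_zero]; exact hsep) (by
      intro i
      rw [res_zero, res_zero]
      exact hcop i) (c 1 - P 1) T' hT' M hM (fun i => (w i).map ψ) (fun i => (b i).map ψ)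
      (fun i => (l i).map ψ) (by
      intro i
      have h4 := congrArg (Polynomial.map ψ) (hid i)
      rw [Polynomial.map_pow, Polynomial.map_add, Polynomial.map_add, Polynomial.map_mul,
        Polynomial.map_mul, Polynomial.map_one, Polynomial.map_C, map_pow, map_natCast, hmap,
        hmap] at h4
      exact h4) (by
      intro i
      rw [← hmap]
      exact logMod_map ψ hψalg (hlog i)) (by
      intro i
      rw [hnd]
      exact lt_of_le_of_lt degree_map_le (hdeg i))
  refine ⟨fun i => Fin.cast hnd (J i), fun h0 => hJ ?_⟩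
  have h5 : (Matrix.of fun i k => ((l i).map ψ).coeff (J k)) =
      ψ.mapMatrix (Matrix.of fun i k => (l i).coeff (Fin.cast hnd (J k))) := by
    ext1 i k
    rw [Matrix.of_apply, coeff_map, RingHom.mapMatrix_apply, Matrix.map_apply, Matrix.of_apply]
    rfl
  rw [h5, ← RingHom.map_det, h0, map_zero]

end Pool.Agent.LPW.H38
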